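import Pool.Agent.Helper38.UN.St

/-!
# Project UN: module GLUE (gluing of charts)
-/

set_option autoImplicit false

noncomputable section

namespace Pool.Agent.Helper2.UN38

open Pool.Agent.Helper71.UN Pool.Agent.Helper38.UN
open Set Filter Topology Matrix
open scoped ContDiff ComplexConjugate

private theorem row_pos {C : Chart} (hC : Function.Injective C.w) (a b : Fin C.n) (x : ℂ)
    (l : ℤ) : C.row a x l (C.w b - C.w a) = C.M l (x - C.w a) a b := by
  unfold Chart.row
  rw [Finset.sum_eq_single b]
  · rw [if_pos rfl]
  · intro b' _ hb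
    rw [if_neg]
    intro e
    exact hb (hC (sub_left_inj.1 e)).symm
  · intro hb
    exact absurd (Finset.mem_univ b) hb

private theorem row_neg {C : Chart} (a : Fin C.n) (x : ℂ) (l : ℤ) (u : ℂ)
    (hu : ∀ b, u ≠ C.w b - C.w a) : C.row a x l u = 0 := by
  unfold Chart.row
  exact Finset.sum_eq_zero fun b _ => if_neg (hu b)

private theorem row_ne {C : Chart} (a : Fin C.n) (x : ℂ) (l : ℤ) (u : ℂ)
    (hu : C.row a x l u ≠ 0) : ∃ b, u = C.w b - C.w a := by
  by_contra hc
  push Not at hc
  exact hu (row_neg a x l u hc)

private theorem row_smooth {Γ : ℤ → ℂ → Prop} {S : Finset ℤ} {C : Chart} (hC : ChartOK Γ S C)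
    (a : Fin C.n) (x₀ : ℂ) (hx : x₀ - C.w a ∈ C.O) (l : ℤ) (u : ℂ) :
    ContDiffAt ℝ ∞ (fun x => C.row a x l u) x₀ := by
  by_cases hu : ∃ b, u = C.w b - C.w a
  · obtain ⟨b, rfl⟩ := hu
    have e : (fun x => C.row a x l (C.w b - C.w a)) = fun x => C.M l (x - C.w a) a b := by
      funext x
      exact row_pos hC.inj a b x l
    rw [e]
    have h1 : ContDiffAt ℝ ∞ (fun x : ℂ => x - C.w a) x₀ := contDiffAt_id.sub contDiffAt_const
    exact (hC.smooth l a b _ hx).comp x₀ h1
  · have e : (fun x => C.row a x l u) = fun _ => 0 := by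
      funext x
      exact row_neg a x l u fun b hb => hu ⟨b, hb⟩
    rw [e]
    exact contDiffAt_const

theorem hGLUE : StGLUE := by
  classical
  intro Γ S ι _ C hC cover agree
  choose ix ax hx using cover
  set R : ℤ → ℂ → ℂ → ℝ := fun l x u => (C (ix x)).row (ax x) x l u with hR
  have key : ∀ x i a, x - (C i).w a ∈ (C i).O → ∀ m u, R m x u = (C i).row a x m u := by
    intro x i a h m u
    have := agree x (ix x) (ax x) i a (hx x) h
    exact congrFun (congrFun this m) u
  -- values in a copy
  have val : ∀ x i a, x - (C i).w a ∈ (C i).O → ∀ m b,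
      R m x ((C i).w b - (C i).w a) = (C i).M m (x - (C i).w a) a b := by
    intro x i a h m b
    rw [key x i a h, row_pos (hC i).inj]
  have nval : ∀ x i a, x - (C i).w a ∈ (C i).O → ∀ m u, (∀ b, u ≠ (C i).w b - (C i).w a) →
      R m x u = 0 := by
    intro x i a h m u hu
    rw [key x i a h, row_neg a x m u hu]
  -- translation
  have tin : ∀ x i a b, x - (C i).w a ∈ (C i).O →
      (x + ((C i).w b - (C i).w a)) - (C i).w b ∈ (C i).O := by
    intro x i a b h
    have e : (x + ((C i).w b - (C i).w a)) - (C i).w b = x - (C i).w a := by ring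
    rw [e]
    exact h
  have tval : ∀ x i a b, x - (C i).w a ∈ (C i).O → ∀ m d,
      R m (x + ((C i).w b - (C i).w a)) ((C i).w d - (C i).w b) =
        (C i).M m (x - (C i).w a) b d := by
    intro x i a b h m d
    rw [val _ i b (tin x i a b h)]
    have e : (x + ((C i).w b - (C i).w a)) - (C i).w b = x - (C i).w a := by ring
    rw [e]
  set Λ : Finset ℂ := (Finset.univ : Finset (Σ i, Fin (C i).n × Fin (C i).n)).image
    (fun s => (C s.1).w s.2.2 - (C s.1).w s.2.1) with hΛ
  have inΛ : ∀ i a b, (C i).w b - (C i).w a ∈ Λ := by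
    intro i a b
    rw [hΛ, Finset.mem_image]
    exact ⟨⟨i, (a, b)⟩, Finset.mem_univ _, rfl⟩
  have symm1 : ∀ m x u, R m x u ≠ 0 → R m (x + u) (-u) = R m x u := by
    intro m x u hu
    have h := hx x
    set i := ix x
    set a := ax x
    obtain ⟨b, rfl⟩ := row_ne a x m u hu
    have e : -((C i).w b - (C i).w a) = (C i).w a - (C i).w b := by ring
    rw [e, tval x i a b h m a, val x i a h m b]
    have hs := (hC i).symm m _ h
    have := congrFun (congrFun hs a) b
    rw [Matrix.transpose_apply] at this
    exact this
  refine ⟨R, Λ, ?_, key⟩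
  refine
    { smooth := ?_
      supp := ?_
      labs := ?_
      lat := ?_
      symm := ?_
      idem := ?_
      sum := ?_ }
  · intro m u
    rw [contDiff_iff_contDiffAt]
    intro x₀
    have h := hx x₀
    set i := ix x₀
    set a := ax x₀
    have hopen : ∀ᶠ x in 𝓝 x₀, x - (C i).w a ∈ (C i).O := by
      have hc : Continuous fun x : ℂ => x - (C i).w a := continuous_id.sub continuous_const
      exact hc.continuousAt.eventually_mem ((hC i).opn.mem_nhds h)
    refine (row_smooth (hC i) a x₀ h m u).congr_of_eventuallyEq ?_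
    filter_upwards [hopen] with x hxo
    exact key x i a hxo m u
  · intro m x u hu
    obtain ⟨b, rfl⟩ := row_ne (ax x) x m u hu
    exact inΛ _ _ _
  · intro m hm x u
    by_contra hu
    have h := hx x
    obtain ⟨b, rfl⟩ := row_ne (ax x) x m u hu
    rw [val x (ix x) (ax x) h m b, (hC (ix x)).zero m hm _ h] at hu
    exact hu rfl
  · intro m x u hu
    have h := hx x
    obtain ⟨b, rfl⟩ := row_ne (ax x) x m u hu
    rw [val x (ix x) (ax x) h m b] at hu
    exact (hC (ix x)).loc m _ h _ _ hu
  · intro m x u
    by_cases h1 : R m x u = 0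
    · by_cases h2 : R m (x + u) (-u) = 0
      · rw [h1, h2]
      · have h3 := symm1 m (x + u) (-u) h2
        rw [add_neg_cancel_right, neg_neg] at h3
        exact h3.symm
    · exact symm1 m x u h1
  · intro m x v
    have h := hx x
    set i := ix x
    set a := ax x
    have hinj : Function.Injective fun b => (C i).w b - (C i).w a := by
      intro b b' e
      exact (hC i).inj (sub_left_inj.1 e)
    have e1 : ∑ u ∈ Λ, R m x u * R m (x + u) (v - u) =
        ∑ b, R m x ((C i).w b - (C i).w a) *
          R m (x + ((C i).w b - (C i).w a)) (v - ((C i).w b - (C i).w a)) := by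
      rw [← Finset.sum_image (s := Finset.univ) (g := fun b => (C i).w b - (C i).w a)
        (f := fun u => R m x u * R m (x + u) (v - u)) (hinj.injOn)]
      symm
      refine Finset.sum_subset ?_ ?_
      · intro u hu
        obtain ⟨b, -, rfl⟩ := Finset.mem_image.1 hu
        exact inΛ i a b
      · intro u _ hu
        have : R m x u = 0 := nval x i a h m u fun b hb =>
          hu (Finset.mem_image.2 ⟨b, Finset.mem_univ _, hb.symm⟩)
        rw [this, zero_mul]
    rw [e1]
    by_cases hv : ∃ d, v = (C i).w d - (C i).w a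
    · obtain ⟨d, rfl⟩ := hv
      have e2 : ∀ b, (C i).w d - (C i).w a - ((C i).w b - (C i).w a) =
          (C i).w d - (C i).w b := fun b => by ring
      simp only [e2]
      have e3 : ∀ b, R m x ((C i).w b - (C i).w a) *
          R m (x + ((C i).w b - (C i).w a)) ((C i).w d - (C i).w b) =
          (C i).M m (x - (C i).w a) a b * (C i).M m (x - (C i).w a) b d := by
        intro b
        rw [val x i a h, tval x i a b h]
      simp only [e3]
      rw [val x i a h m d]
      have := congrFun (congrFun ((hC i).idem m _ h) a) d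
      rw [Matrix.mul_apply] at this
      exact this
    · push Not at hv
      rw [nval x i a h m v hv]
      refine Finset.sum_eq_zero fun b _ => ?_
      have : R m (x + ((C i).w b - (C i).w a)) (v - ((C i).w b - (C i).w a)) = 0 := by
        refine nval _ i b (tin x i a b h) m _ fun d hd => hv d ?_
        have e4 : v = (v - ((C i).w b - (C i).w a)) + ((C i).w b - (C i).w a) := by ring
        rw [e4, hd]
        ring
      rw [this, mul_zero]
  · intro x v
    have h := hx x
    set i := ix x
    set a := ax x
    by_cases hv : ∃ d, v = (C i).w d - (C i).w a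
    · obtain ⟨d, rfl⟩ := hv
      have e1 : ∑ m ∈ S, R m x ((C i).w d - (C i).w a) =
          (∑ m ∈ S, (C i).M m (x - (C i).w a)) a d := by
        rw [Matrix.sum_apply]
        exact Finset.sum_congr rfl fun m _ => val x i a h m d
      rw [e1, (hC i).sum _ h, Matrix.one_apply]
      by_cases had : a = d
      · subst had
        rw [if_pos rfl, sub_self, if_pos rfl]
      · rw [if_neg had, if_neg]
        intro e
        exact had ((hC i).inj (sub_eq_zero.1 e)).symm
    · push Not at hv
      rw [Finset.sum_eq_zero fun m _ => nval x i a h m v hv, if_neg]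
      intro e
      exact hv a (by rw [e, sub_self])

end Pool.Agent.Helper2.UN38

end
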