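import Pool.Agent.Helper38.UN.St

/-!
# Project UN: module RD1 (radius, first part)
-/

set_option autoImplicit false

noncomputable section

namespace Pool.Agent.Helper2.UN38

open Pool.Agent.Helper71.UN Pool.Agent.Helper38.UN
open Set Filter Topology Matrix
open scoped ContDiff ComplexConjugate

private theorem small (δ : ℝ) (hδ : 0 < δ) : ∀ᶠ r in 𝓝[>] (0 : ℝ), r < δ :=
  nhdsWithin_le_nhds (Iio_mem_nhds hδ)

theorem hRD1 : StRD1 := by
  intro κ J _ _ n N S r₁ r₂ h
  have e1 : ∀ᶠ r in 𝓝[>] (0 : ℝ),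
      ∀ c a c' a', ‖N.pos c a - N.pos c' a'‖ < 4 * r → c = c' ∧ a = a' := by
    refine eventually_all.2 fun c => eventually_all.2 fun a => eventually_all.2 fun c' =>
      eventually_all.2 fun a' => ?_
    by_cases hc : c = c' ∧ a = a'
    · exact Eventually.of_forall fun r _ => hc
    · have hpos : 0 < ‖N.pos c a - N.pos c' a'‖ := by
        rw [norm_pos_iff, sub_ne_zero]
        exact fun e => hc (h.inj c a c' a' e)
      filter_upwards [small (‖N.pos c a - N.pos c' a'‖ / 4) (by positivity)] with r hr hlt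
      exfalso
      linarith
  have e2 : ∀ᶠ r in 𝓝[>] (0 : ℝ), ∀ c a z, ‖z‖ < 2 * r →
      (∀ j, N.cls j = c → (N.ra j = a ∨ N.rb j = a) →
        ¬ (hh (N.d j) z = 0 ∧ 0 ≤ tt (N.d j) z)) → N.lam (N.pos c a + z) = N.nu c a z := by
    refine eventually_all.2 fun c => eventually_all.2 fun a => ?_
    obtain ⟨δ, hδ, hd⟩ := Metric.eventually_nhds_iff.1 (h.vert c a)
    filter_upwards [small (δ / 2) (by positivity)] with r hr z hz hq
    refine hd (y := z) ?_ hq
    rw [dist_zero_right]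
    linarith
  have e3 : ∀ᶠ r in 𝓝[>] (0 : ℝ), ∀ j, 4 * r ≤ ‖N.d j‖ := by
    refine eventually_all.2 fun j => ?_
    have hpos : 0 < ‖N.d j‖ := norm_pos_iff.2 (h.d_ne j)
    filter_upwards [small (‖N.d j‖ / 4) (by positivity)] with r hr
    linarith
  have e4 : ∀ᶠ r in 𝓝[>] (0 : ℝ),
      ∀ c a, r₁ + 2 * r < ‖N.pos c a‖ ∧ ‖N.pos c a‖ + 2 * r < r₂ := by
    refine eventually_all.2 fun c => eventually_all.2 fun a => ?_
    obtain ⟨h1, h2⟩ := h.verts c a
    filter_upwards [small ((‖N.pos c a‖ - r₁) / 2) (by linarith),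
      small ((r₂ - ‖N.pos c a‖) / 2) (by linarith)] with r hr hr'
    constructor <;> linarith
  filter_upwards [e1, e2, e3, e4] with r a1 a2 a3 a4
  exact ⟨a1, a2, a3, a4⟩

end Pool.Agent.Helper2.UN38

end
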